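import Pool.Agent.H4ES.Defs

/-!
The join of two `m`-cycles, `m ≥ 3`, a triangulated 3-sphere with `m²` tetrahedra: the edges of the
two cycles lie in `m` tetrahedra, the other edges lie in four.
-/

namespace Pool.Agent.H37ES

open Pool.Agent.H4ES

variable {m : ℕ}

lemma zmod_facts (h : 3 ≤ m) : (1 : ZMod m) ≠ 0 ∧ (1 + 1 : ZMod m) ≠ 0 := by
  constructor
  · intro h1
    have : ((1 : ℕ) : ZMod m) = 0 := by simpa using h1
    rw [ZMod.natCast_eq_zero_iff] at this
    exact absurd (Nat.le_of_dvd one_pos this) (by omega)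
  · intro h1
    have : ((2 : ℕ) : ZMod m) = 0 := by
      push_cast
      rw [← h1]
      norm_num
    rw [ZMod.natCast_eq_zero_iff] at this
    exact absurd (Nat.le_of_dvd two_pos this) (by omega)

lemma pair_inj (h : 3 ≤ m) {i i' : ZMod m} (h1 : i = i' ∨ i = i' + 1)
    (h2 : i + 1 = i' ∨ i + 1 = i' + 1) : i = i' := by
  rcases h1 with h1 | h1
  · exact h1
  · rcases h2 with h2 | h2
    · exfalso
      rw [h1, add_assoc] at h2
      exact (zmod_facts h).2 (by simpa using h2)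
    · exact add_right_cancel h2

/-- The join of two `m`-cycles. -/
def join (m : ℕ) (h : 3 ≤ m) : Cplx (ZMod m ⊕ ZMod m) (ZMod m × ZMod m) where
  v T := ![Sum.inl T.1, Sum.inl (T.1 + 1), Sum.inr T.2, Sum.inr (T.2 + 1)]
  inj := by
    rintro ⟨i, j⟩ a b hab
    have h1 := (zmod_facts h).1
    fin_cases a <;> fin_cases b <;> simp_all
  dist := by
    rintro ⟨i, j⟩ ⟨i', j'⟩ hT
    have key : ∀ x, x ∈ Set.range (![Sum.inl i, Sum.inl (i + 1), Sum.inr j, Sum.inr (j + 1)] :
        Fin 4 → ZMod m ⊕ ZMod m) → x ∈ Set.range (![Sum.inl i', Sum.inl (i' + 1), Sum.inr j',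
        Sum.inr (j' + 1)] : Fin 4 → ZMod m ⊕ ZMod m) := fun x hx => hT ▸ hx
    have mem : ∀ (p q : ZMod m) (x : ZMod m ⊕ ZMod m),
        x ∈ Set.range (![Sum.inl p, Sum.inl (p + 1), Sum.inr q, Sum.inr (q + 1)] :
        Fin 4 → ZMod m ⊕ ZMod m) ↔ x = Sum.inl p ∨ x = Sum.inl (p + 1) ∨ x = Sum.inr q ∨
          x = Sum.inr (q + 1) := by
      intro p q x
      simp only [Set.mem_range, Fin.exists_fin_succ, Fin.exists_fin_zero]
      simp [eq_comm]
    have a1 := key (Sum.inl i) ((mem i j _).2 (Or.inl rfl))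
    have a2 := key (Sum.inl (i + 1)) ((mem i j _).2 (Or.inr (Or.inl rfl)))
    have a3 := key (Sum.inr j) ((mem i j _).2 (Or.inr (Or.inr (Or.inl rfl))))
    have a4 := key (Sum.inr (j + 1)) ((mem i j _).2 (Or.inr (Or.inr (Or.inr rfl))))
    rw [mem] at a1 a2 a3 a4
    simp only [Sum.inl.injEq, Sum.inr.injEq, reduceCtorEq, or_false, false_or] at a1 a2 a3 a4
    rw [pair_inj h a1 a2, pair_inj h a3 a4]

lemma ex_ed (h : 3 ≤ m) (T : ZMod m × ZMod m) (e : Sym2 (ZMod m ⊕ ZMod m)) :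
    (∃ k, (join m h).ed T k = e) ↔
      s(Sum.inl T.1, Sum.inl (T.1 + 1)) = e ∨ s(Sum.inl T.1, Sum.inr T.2) = e ∨
      s(Sum.inl T.1, Sum.inr (T.2 + 1)) = e ∨ s(Sum.inl (T.1 + 1), Sum.inr T.2) = e ∨
      s(Sum.inl (T.1 + 1), Sum.inr (T.2 + 1)) = e ∨ s(Sum.inr T.2, Sum.inr (T.2 + 1)) = e := by
  simp only [Fin.exists_fin_succ, Fin.exists_fin_zero]
  simp [Cplx.ed, join, ei, ej]

/-- the edges of the two cycles -/
def red (e : Sym2 (ZMod m ⊕ ZMod m)) : Prop :=
  (∃ a b, e = s(Sum.inl a, Sum.inl b)) ∨ ∃ a b, e = s(Sum.inr a, Sum.inr b)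

lemma red_ed (h : 3 ≤ m) (T : ZMod m × ZMod m) (k : Fin 6) :
    red ((join m h).ed T k) ↔ k = 0 ∨ k = 5 := by
  unfold red
  fin_cases k
  · simp only [Fin.zero_eta, Fin.isValue, true_or, iff_true]
    exact Or.inl ⟨T.1, T.1 + 1, rfl⟩
  · simp [Cplx.ed, join, ei, ej]
  · simp [Cplx.ed, join, ei, ej]
  · simp [Cplx.ed, join, ei, ej]
  · simp [Cplx.ed, join, ei, ej]
  · simp only [Fin.reduceFinMk, Fin.isValue, or_true, iff_true]
    exact Or.inr ⟨T.2, T.2 + 1, rfl⟩

section
variable [NeZero m]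

theorem deg_left (h : 3 ≤ m) (i : ZMod m) :
    (join m h).deg s(Sum.inl i, Sum.inl (i + 1)) = m := by
  classical
  have h1 : (Finset.univ.filter fun T : ZMod m × ZMod m =>
      ∃ k, (join m h).ed T k = s(Sum.inl i, Sum.inl (i + 1))) = {i} ×ˢ Finset.univ := by
    ext ⟨i', j'⟩
    rw [Finset.mem_filter, ex_ed]
    simp only [Finset.mem_univ, true_and, Sym2.eq_iff, Sum.inl.injEq, reduceCtorEq, and_false,
      false_and, or_false, false_or, Finset.mem_product, Finset.mem_singleton, and_true]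
    constructor
    · rintro (⟨h1, -⟩ | ⟨h1, h2⟩)
      · exact h1
      · exfalso
        rw [h1, add_assoc] at h2
        exact (zmod_facts h).2 (by simpa using h2)
    · intro h1
      exact Or.inl ⟨h1, by rw [h1]⟩
  unfold Cplx.deg
  rw [h1, Finset.card_product, Finset.card_singleton, one_mul, Finset.card_univ, ZMod.card]

theorem deg_right (h : 3 ≤ m) (j : ZMod m) :
    (join m h).deg s(Sum.inr j, Sum.inr (j + 1)) = m := by
  classical
  have h1 : (Finset.univ.filter fun T : ZMod m × ZMod m =>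
      ∃ k, (join m h).ed T k = s(Sum.inr j, Sum.inr (j + 1))) = Finset.univ ×ˢ {j} := by
    ext ⟨i', j'⟩
    rw [Finset.mem_filter, ex_ed]
    simp only [Finset.mem_univ, true_and, Sym2.eq_iff, Sum.inr.injEq, reduceCtorEq, and_false,
      false_and, or_false, false_or, Finset.mem_product, Finset.mem_singleton]
    constructor
    · rintro (⟨h1, -⟩ | ⟨h1, h2⟩)
      · exact h1
      · exfalso
        rw [h1, add_assoc] at h2
        exact (zmod_facts h).2 (by simpa using h2)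
    · intro h1
      exact Or.inl ⟨h1, by rw [h1]⟩
  unfold Cplx.deg
  rw [h1, Finset.card_product, Finset.card_singleton, mul_one, Finset.card_univ, ZMod.card]

theorem deg_mixed (h : 3 ≤ m) (i j : ZMod m) :
    (join m h).deg s(Sum.inl i, Sum.inr j) = 4 := by
  classical
  have hne : ∀ a : ZMod m, a ≠ a - 1 := fun a ha => (zmod_facts h).1 (by
    have := congrArg (fun t => a - t) ha
    simpa using this.symm)
  have h1 : (Finset.univ.filter fun T : ZMod m × ZMod m =>
      ∃ k, (join m h).ed T k = s(Sum.inl i, Sum.inr j)) =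
      ({i, i - 1} : Finset (ZMod m)) ×ˢ ({j, j - 1} : Finset (ZMod m)) := by
    ext ⟨i', j'⟩
    rw [Finset.mem_filter, ex_ed]
    simp only [Finset.mem_univ, true_and, Sym2.eq_iff, Sum.inr.injEq, Sum.inl.injEq,
      reduceCtorEq, and_false, false_and, or_false, false_or, Finset.mem_product,
      Finset.mem_insert, Finset.mem_singleton, eq_sub_iff_add_eq]
    tauto
  unfold Cplx.deg
  rw [h1, Finset.card_product, Finset.card_pair (hne i), Finset.card_pair (hne j)]

/-- red edges lie in `m` tetrahedra -/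
theorem deg_red (h : 3 ≤ m) {e : Sym2 (ZMod m ⊕ ZMod m)} (he : e ∈ (join m h).edges)
    (hr : red e) : (join m h).deg e = m := by
  obtain ⟨⟨T, k⟩, -, rfl⟩ := Finset.mem_image.1 he
  rcases (red_ed h T k).1 hr with rfl | rfl
  · exact deg_left h T.1
  · exact deg_right h T.2

/-- the other edges lie in four tetrahedra -/
theorem deg_not_red (h : 3 ≤ m) {e : Sym2 (ZMod m ⊕ ZMod m)} (he : e ∈ (join m h).edges)
    (hr : ¬red e) : (join m h).deg e = 4 := by
  obtain ⟨⟨T, k⟩, -, rfl⟩ := Finset.mem_image.1 he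
  have hk := mt (red_ed h T k).2 hr
  fin_cases k
  · exact absurd (Or.inl rfl) hk
  · exact deg_mixed h T.1 T.2
  · exact deg_mixed h T.1 (T.2 + 1)
  · exact deg_mixed h (T.1 + 1) T.2
  · exact deg_mixed h (T.1 + 1) (T.2 + 1)
  · exact absurd (Or.inr rfl) hk

end

end Pool.Agent.H37ES
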